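import Mathlib
import Pool.Agent.K9h74.TP.Main

set_option autoImplicit false

/-!
# The `τ_n`-perpendicular class of a `τ_n`-tilting module is preenveloping

All definitions are in `Pool.Agent.K9h74.TP.Defs`.

Let `P = P_{≥ -n}(M)` be silting and let `N` be a finitely generated module, viewed as a complex in
degree `0`. By the Auslander–Reiten formula, `N ∈ M^{⊥ τ_n}` iff `Hom_D(P[-k], N) = 0` for all
`k ≥ 1`.

Let `C` be a finitely generated module with `Hom_D(P[-k], C) = 0` for all `k > j`. (For `j = n` this
holds for every `C`.) Coning off finitely many morphisms from `P[-j], ..., P[-1]` one gets a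
morphism `C → U` with `Hom_D(P[-k], U) = 0` for all `k ≥ 1`, and every morphism from `C` to a module
in `M^{⊥ τ_n}` factors through it.

* Since `P` is silting, this implies that `H^i(U) = 0` for `i > 0` (orthogonality lemma).
* Since `P` has cohomology only in degrees `0` and `-n`, `H^i(U) = 0` for `j - 1 - n < i < 0`.

Let `C₁ = H^0(U)`. Then every morphism from `C` to a module in `M^{⊥ τ_n}` factors through
`C → C₁`, and comparing `U` with `C₁` one finds `Hom_D(P[-k], C₁) = 0` for all
`k ≥ max(1, j - 1)`. So `j` has dropped to `j - 2`, and after finitely many steps one arrives at a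
module in `M^{⊥ τ_n}`.
-/

namespace Pool.Agent.Results.MP_766682_al.TauPerpPreenveloping

open CategoryTheory K9h74.TP

universe u

/-- Let `Λ` be an Artin algebra over the commutative artinian ring `R`, let `E` be an injective
envelope of `R / rad R`, let `n ≥ 1`, and let `M` be a `Λ`-module which is `τ_n`-tilting, i.e. the
complex `P = P_{≥ -n}(M)` coming from a minimal projective resolution of `M` by finitely generated
projective modules is silting. Then `M^{⊥ τ_n}` is preenveloping in `mod Λ`. (The hypothesis
`IsMinTrunc` implies that `M` is finitely generated.) -/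
theorem result (R : Type u) [CommRing R] [IsArtinianRing R]
    (Λ : Type u) [Ring Λ] [Algebra R Λ] [Module.Finite R Λ]
    (E : Type u) [AddCommGroup E] [Module R E] (hE : IsInjEnvelope R E)
    (n : ℕ) (hn : 1 ≤ n) (M : ModuleCat.{u} Λ) (P : Cx Λ) (ε : P.mod 0 ⟶ M)
    (hP : IsMinTrunc n M P ε) (hs : IsSilting P) : IsPreenveloping (TauPerp R E n M P) :=
  preenveloping R E hE n hn M P ε hP hs

end Pool.Agent.Results.MP_766682_al.TauPerpPreenveloping
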